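import Pool.Agent.N805.VP.Base

/-! # Thinning of the Fredholm determinant -/

set_option autoImplicit false

open MeasureTheory Set Filter Topology

namespace Pool.Agent.N591.VP

open Pool.Agent.N805.VP

/-! ### counting -/

lemma desc_aux (n : ℕ) (k : ℕ) :
    n ^ (k + 1) ≤ n.descFactorial (k + 1) + (k + 1) * k * n ^ k := by
  induction k with
  | zero => simp
  | succ k ih =>
    have h1 : n.descFactorial (k + 1) ≤ n ^ (k + 1) := Nat.descFactorial_le_pow n (k + 1)
    have h2 : n * n.descFactorial (k + 1) ≤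
        n.descFactorial (k + 1 + 1) + (k + 1) * n.descFactorial (k + 1) := by
      rw [Nat.descFactorial_succ n (k + 1), ← add_mul]
      exact Nat.mul_le_mul_right _ (by omega)
    calc n ^ (k + 1 + 1) = n * n ^ (k + 1) := by ring
      _ ≤ n * (n.descFactorial (k + 1) + (k + 1) * k * n ^ k) := Nat.mul_le_mul_left _ ih
      _ = n * n.descFactorial (k + 1) + (k + 1) * k * n ^ (k + 1) := by ring
      _ ≤ n.descFactorial (k + 1 + 1) + (k + 1) * n.descFactorial (k + 1) +
          (k + 1) * k * n ^ (k + 1) := Nat.add_le_add_right h2 _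
      _ ≤ n.descFactorial (k + 1 + 1) + (k + 1) * n ^ (k + 1) +
          (k + 1) * k * n ^ (k + 1) := by gcongr
      _ = n.descFactorial (k + 1 + 1) + (k + 1) * (k + 1) * n ^ (k + 1) := by ring
      _ ≤ _ := by
          gcongr
          · omega

open scoped Classical in
/-- the injective maps into a finite set -/
lemma card_inj {α : Type} (B : Finset α) (k : ℕ) :
    ((Fintype.piFinset fun _ : Fin k => B).filter Function.Injective).card =
      B.card.descFactorial k := by
  have h2 : ((Fintype.piFinset fun _ : Fin k => B).filter Function.Injective).card =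
      Fintype.card (Fin k ↪ B) := by
    rw [← Fintype.card_coe]
    refine Fintype.card_congr ⟨fun j => ⟨fun i => ⟨j.1 i, ?_⟩, ?_⟩, fun e => ⟨fun i => (e i : α), ?_⟩,
      ?_, ?_⟩
    · have := (Finset.mem_filter.1 j.2).1
      rw [Fintype.mem_piFinset] at this
      exact this i
    · intro i i' h
      exact (Finset.mem_filter.1 j.2).2 (congrArg Subtype.val h)
    · rw [Finset.mem_filter, Fintype.mem_piFinset]
      refine ⟨fun i => (e i).2, fun i i' h => e.injective (Subtype.ext h)⟩
    · intro j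
      rfl
    · intro e
      rfl
  rw [h2, Fintype.card_embedding_eq, Fintype.card_fin, Fintype.card_coe]

open scoped Classical in
lemma card_noninj {α : Type} (B : Finset α) (k : ℕ) :
    (((Fintype.piFinset fun _ : Fin k => B).filter fun f => ¬ Function.Injective f).card : ℝ) ≤
      k * (k - 1) * (B.card : ℝ) ^ (k - 1) := by
  rcases k with _ | k
  · have : ((Fintype.piFinset fun _ : Fin 0 => B).filter fun f => ¬ Function.Injective f) = ∅ := by
      rw [Finset.filter_eq_empty_iff]
      intro f _ h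
      exact h (Function.injective_of_subsingleton f)
    rw [this]
    simp
  · have h1 := Finset.card_filter_add_card_filter_not (s := Fintype.piFinset fun _ : Fin (k + 1) => B)
      Function.Injective
    rw [card_inj, Fintype.card_piFinset, Finset.prod_const, Finset.card_univ,
      Fintype.card_fin] at h1
    have h2 := desc_aux B.card k
    have h3 : ((Fintype.piFinset fun _ : Fin (k + 1) => B).filter
        fun f => ¬ Function.Injective f).card ≤ (k + 1) * k * B.card ^ k := by omega
    have h4 : (((Fintype.piFinset fun _ : Fin (k + 1) => B).filter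
        fun f => ¬ Function.Injective f).card : ℝ) ≤ (k + 1) * k * (B.card : ℝ) ^ k := by
      exact_mod_cast h3
    push_cast
    rw [add_sub_cancel_right]
    exact h4

/-! ### thinning weights -/

/-- the weight of a subset -/
noncomputable def wt (A : Finset ℤ) (z : ℝ) (S : Finset ℤ) : ℝ :=
  z ^ S.card * (1 - z) ^ (A.card - S.card)

lemma wt_sum (A : Finset ℤ) (z : ℝ) : ∑ S ∈ A.powerset, wt A z S = 1 := by
  unfold wt
  rw [Finset.sum_pow_mul_eq_add_pow]
  simp

lemma wt_nonneg {A : Finset ℤ} {z : ℝ} (h0 : 0 ≤ z) (h1 : z ≤ 1) (S : Finset ℤ) :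
    0 ≤ wt A z S := mul_nonneg (pow_nonneg h0 _) (pow_nonneg (by linarith) _)

lemma wt_above {A R : Finset ℤ} (hR : R ⊆ A) (z : ℝ) :
    ∑ S ∈ A.powerset.filter (fun S => R ⊆ S), wt A z S = z ^ R.card := by
  have e : A.powerset.filter (fun S => R ⊆ S) = (A \ R).powerset.image (R ∪ ·) := by
    rw [← Finset.Icc_eq_image_powerset hR]
    ext S
    rw [Finset.mem_filter, Finset.mem_powerset, Finset.mem_Icc]
    exact and_comm
  have hinj : Set.InjOn (R ∪ ·) ((A \ R).powerset : Set (Finset ℤ)) := by
    intro S hS T hT h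
    have hS' := Finset.mem_powerset.1 (Finset.mem_coe.1 hS)
    have hT' := Finset.mem_powerset.1 (Finset.mem_coe.1 hT)
    have h' : R ∪ S = R ∪ T := h
    have dS : Disjoint S R := Finset.disjoint_of_subset_left hS' Finset.sdiff_disjoint
    have dT : Disjoint T R := Finset.disjoint_of_subset_left hT' Finset.sdiff_disjoint
    calc S = (R ∪ S) \ R := by rw [Finset.union_sdiff_left, dS.sdiff_eq_left]
      _ = (R ∪ T) \ R := by rw [h']
      _ = T := by rw [Finset.union_sdiff_left, dT.sdiff_eq_left]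
  rw [e, Finset.sum_image hinj]
  have h1 : ∀ S ∈ (A \ R).powerset, wt A z (R ∪ S) =
      z ^ R.card * (z ^ S.card * (1 - z) ^ ((A \ R).card - S.card)) := by
    intro S hS
    have hS' := Finset.mem_powerset.1 hS
    have dS : Disjoint R S := (Finset.disjoint_of_subset_left hS' Finset.sdiff_disjoint).symm
    unfold wt
    rw [Finset.card_union_of_disjoint dS, pow_add, Finset.card_sdiff_of_subset hR,
      Nat.sub_sub]
    ring
  rw [Finset.sum_congr rfl h1, ← Finset.mul_sum, Finset.sum_pow_mul_eq_add_pow]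
  simp

/-- exchange of the sums -/
lemma swap_sum (A : Finset ℤ) (z : ℝ) {k : ℕ} (g : (Fin k → ℤ) → ℝ) :
    ∑ S ∈ A.powerset, wt A z S * ∑ f ∈ Fintype.piFinset (fun _ : Fin k => S), g f =
      ∑ f ∈ Fintype.piFinset (fun _ : Fin k => A), z ^ (Finset.univ.image f).card * g f := by
  have h1 : ∀ S ∈ A.powerset, wt A z S * ∑ f ∈ Fintype.piFinset (fun _ : Fin k => S), g f =
      ∑ f ∈ Fintype.piFinset (fun _ : Fin k => A),
        if Finset.univ.image f ⊆ S then wt A z S * g f else 0 := by
    intro S hS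
    rw [← Finset.sum_filter, Finset.mul_sum]
    refine Finset.sum_congr ?_ fun _ _ => rfl
    ext f
    rw [Finset.mem_filter, Fintype.mem_piFinset, Fintype.mem_piFinset]
    constructor
    · intro h
      refine ⟨fun i => Finset.mem_powerset.1 hS (h i), ?_⟩
      intro a ha
      obtain ⟨i, -, rfl⟩ := Finset.mem_image.1 ha
      exact h i
    · rintro ⟨-, h⟩ i
      exact h (Finset.mem_image_of_mem f (Finset.mem_univ i))
  rw [Finset.sum_congr rfl h1, Finset.sum_comm]
  refine Finset.sum_congr rfl fun f hf => ?_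
  rw [← Finset.sum_filter, ← Finset.sum_mul, wt_above]
  intro a ha
  obtain ⟨i, -, rfl⟩ := Finset.mem_image.1 ha
  exact Fintype.mem_piFinset.1 hf i

/-! ### cells -/

lemma cells_bdd {h : ℝ} (hh : 0 < h) {k : ℕ} (f : Fin k → ℤ) :
    ∃ b : ℝ, ∀ i, cell h (f i) ⊆ Icc (-b) b := by
  refine ⟨(∑ i, |(f i : ℝ)| * h) + h, fun i => cell_bdd hh ?_⟩
  exact Finset.single_le_sum (f := fun i => |(f i : ℝ)| * h) (fun _ _ => by positivity)
    (Finset.mem_univ i)

lemma G_split {h : ℝ} (hh : 0 < h) (S : Finset ℤ) (k : ℕ) :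
    G (fun _ : Fin k => U h S) =
      ∑ f ∈ Fintype.piFinset (fun _ : Fin k => S), G (fun i => cell h (f i)) := by
  have hset : Set.pi univ (fun _ : Fin k => U h S) =
      ⋃ f ∈ Fintype.piFinset (fun _ : Fin k => S), Set.pi univ (fun i => cell h (f i)) := by
    ext q
    simp only [Set.mem_pi, mem_univ, true_implies, U, mem_iUnion, exists_prop,
      Fintype.mem_piFinset]
    constructor
    · intro hq
      choose f hf using hq
      exact ⟨f, fun i => (hf i).1, fun i => (hf i).2⟩
    · rintro ⟨f, hf1, hf2⟩ i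
      exact ⟨f i, hf1 i, hf2 i⟩
  unfold G
  rw [hset, integral_biUnion_finset]
  · intro f _
    exact MeasurableSet.univ_pi fun i => cell_meas h (f i)
  · intro f _ g _ hfg
    rw [Function.onFun, Set.disjoint_left]
    intro q hq1 hq2
    apply hfg
    funext i
    by_contra hne
    exact Set.disjoint_left.1 (cell_disj hh (mem_univ (f i)) (mem_univ (g i)) hne)
      (hq1 i (mem_univ i)) (hq2 i (mem_univ i))
  · intro f _
    exact D_int (cells_bdd hh f)

lemma G_cells_le (hD : S_DET) {h : ℝ} (hh : 0 < h) {k : ℕ} (f : Fin k → ℤ) :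
    G (fun i => cell h (f i)) ≤ h ^ k := by
  refine (G_le hD (fun i => cell_meas h (f i)) (cells_bdd hh f)).trans (le_of_eq ?_)
  simp only [cell_vol h hh.le, Finset.prod_const, Finset.card_univ, Fintype.card_fin]

lemma G_cells_nonneg (hD : S_DET) {h : ℝ} {k : ℕ} (f : Fin k → ℤ) :
    0 ≤ G (fun i => cell h (f i)) := G_nonneg hD fun i => cell_meas h (f i)

open scoped Classical in
/-- the error of the `k`-th term -/
lemma term_le (hD : S_DET) {h : ℝ} (hh : 0 < h) (A : Finset ℤ) {z : ℝ} (h0 : 0 ≤ z) (h1 : z ≤ 1)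
    (k : ℕ) :
    |∑ S ∈ A.powerset, wt A z S * G (fun _ : Fin k => U h S) - z ^ k * G (fun _ : Fin k => U h A)| ≤
      k * (k - 1) * (A.card : ℝ) ^ (k - 1) * h ^ k := by
  have e1 : ∑ S ∈ A.powerset, wt A z S * G (fun _ : Fin k => U h S) -
      z ^ k * G (fun _ : Fin k => U h A) = ∑ f ∈ Fintype.piFinset (fun _ : Fin k => A),
        (z ^ (Finset.univ.image f).card - z ^ k) * G (fun i => cell h (f i)) := by
    simp only [G_split hh]
    rw [swap_sum, Finset.mul_sum, ← Finset.sum_sub_distrib]
    refine Finset.sum_congr rfl fun f _ => ?_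
    ring
  have e2 : ∑ f ∈ Fintype.piFinset (fun _ : Fin k => A),
        (z ^ (Finset.univ.image f).card - z ^ k) * G (fun i => cell h (f i)) =
      ∑ f ∈ (Fintype.piFinset (fun _ : Fin k => A)).filter (fun f => ¬ Function.Injective f),
        (z ^ (Finset.univ.image f).card - z ^ k) * G (fun i => cell h (f i)) := by
    symm
    refine Finset.sum_filter_of_ne fun f _ hne hinj => ?_
    apply hne
    rw [Finset.card_image_of_injective _ hinj, Finset.card_univ, Fintype.card_fin, sub_self,
      zero_mul]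
  rw [e1, e2]
  refine (Finset.abs_sum_le_sum_abs _ _).trans ?_
  have h2 : ∀ f ∈ (Fintype.piFinset (fun _ : Fin k => A)).filter (fun f => ¬ Function.Injective f),
      |(z ^ (Finset.univ.image f).card - z ^ k) * G (fun i => cell h (f i))| ≤ h ^ k := by
    intro f _
    rw [abs_mul, abs_of_nonneg (G_cells_nonneg hD f)]
    have h3 : |z ^ (Finset.univ.image f).card - z ^ k| ≤ 1 := by
      have a1 : z ^ (Finset.univ.image f).card ≤ 1 := pow_le_one₀ h0 h1
      have a2 : z ^ k ≤ 1 := pow_le_one₀ h0 h1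
      have a3 : 0 ≤ z ^ (Finset.univ.image f).card := pow_nonneg h0 _
      have a4 : 0 ≤ z ^ k := pow_nonneg h0 _
      rw [abs_le]
      constructor <;> linarith
    calc _ ≤ 1 * h ^ k := mul_le_mul h3 (G_cells_le hD hh f) (G_cells_nonneg hD f) zero_le_one
      _ = h ^ k := one_mul _
  refine (Finset.sum_le_card_nsmul _ _ _ h2).trans ?_
  rw [nsmul_eq_mul]
  refine mul_le_mul_of_nonneg_right ?_ (pow_nonneg hh.le k)
  refine (le_of_eq ?_).trans (card_noninj A k)
  congr!

lemma err_sum (h : ℝ) (n : ℝ) :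
    HasSum (fun k : ℕ => ((k : ℝ) * (k - 1) * n ^ (k - 1) * h ^ k) / (k.factorial : ℝ))
      (h * (h * n) * Real.exp (h * n)) := by
  rw [← hasSum_nat_add_iff' 2]
  have h1 : HasSum (fun m : ℕ => h * (h * n) * ((h * n) ^ m / (m.factorial : ℝ)))
      (h * (h * n) * Real.exp (h * n)) := by
    have := NormedSpace.expSeries_div_hasSum_exp (h * n)
    rw [← Real.exp_eq_exp_ℝ] at this
    exact this.mul_left _
  have h2 : (h * (h * n) * Real.exp (h * n)) -
      ∑ i ∈ Finset.range 2, ((i : ℝ) * (i - 1) * n ^ (i - 1) * h ^ i) / (i.factorial : ℝ) =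
        h * (h * n) * Real.exp (h * n) := by
    simp [Finset.sum_range_succ]
  have e : (fun m : ℕ => (((m + 2 : ℕ) : ℝ) * (((m + 2 : ℕ) : ℝ) - 1) * n ^ (m + 2 - 1) *
      h ^ (m + 2)) / ((m + 2).factorial : ℝ)) =
      fun m : ℕ => h * (h * n) * ((h * n) ^ m / (m.factorial : ℝ)) := by
    funext m
    rw [show m + 2 - 1 = m + 1 by omega, Nat.factorial_succ, Nat.factorial_succ]
    have hm : (m.factorial : ℝ) ≠ 0 := by positivity
    have hm1 : (m : ℝ) + 1 ≠ 0 := by positivity
    have hm2 : (m : ℝ) + 1 + 1 ≠ 0 := by positivity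
    push_cast
    field_simp
    ring
  rw [h2]
  show HasSum (fun m : ℕ => (((m + 2 : ℕ) : ℝ) * (((m + 2 : ℕ) : ℝ) - 1) * n ^ (m + 2 - 1) *
      h ^ (m + 2)) / ((m + 2).factorial : ℝ)) _
  rw [e]
  exact h1

theorem GTHIN : Pool.Agent.N805.VP.S_GTHIN := by
  intro hD h hh A z h0 h1
  have hE : ∀ S : Finset ℤ, HasSum (fun k : ℕ => (-(1 : ℝ)) ^ k / (k.factorial : ℝ) *
      G (fun _ : Fin k => U h S)) (E (U h S)) := fun S =>
    (Phi_summable hD (z := 1) (U_meas h S) (U_bdd h hh S)).hasSum
  have hS : HasSum (fun k : ℕ => ∑ S ∈ A.powerset, wt A z S * ((-(1 : ℝ)) ^ k /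
      (k.factorial : ℝ) * G (fun _ : Fin k => U h S))) (∑ S ∈ A.powerset, wt A z S * E (U h S)) :=
    hasSum_sum fun S _ => (hE S).mul_left _
  have hP : HasSum (fun k : ℕ => (-z) ^ k / (k.factorial : ℝ) * G (fun _ : Fin k => U h A))
      (Phi z (U h A)) := (Phi_summable hD (U_meas h A) (U_bdd h hh A)).hasSum
  have hR := hP.add (err_sum h (A.card : ℝ))
  have key := hasSum_le (fun k => ?_) hS hR
  · have e : ∑ S ∈ A.powerset, z ^ S.card * (1 - z) ^ (A.card - S.card) * (1 - E (U h S)) =
        1 - ∑ S ∈ A.powerset, wt A z S * E (U h S) := by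
      have e0 : ∑ S ∈ A.powerset, z ^ S.card * (1 - z) ^ (A.card - S.card) * (1 - E (U h S)) =
          ∑ S ∈ A.powerset, wt A z S - ∑ S ∈ A.powerset, wt A z S * E (U h S) := by
        rw [← Finset.sum_sub_distrib]
        refine Finset.sum_congr rfl fun S _ => ?_
        unfold wt
        ring
      rw [e0, wt_sum]
    rw [e]
    linarith
  · have ht := term_le hD hh A h0 h1 k
    have hk : (0 : ℝ) < (k.factorial : ℝ) := by positivity
    have e1 : ∑ S ∈ A.powerset, wt A z S * ((-(1 : ℝ)) ^ k / (k.factorial : ℝ) *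
        G (fun _ : Fin k => U h S)) - (-z) ^ k / (k.factorial : ℝ) * G (fun _ : Fin k => U h A) =
        (-(1 : ℝ)) ^ k * ((∑ S ∈ A.powerset, wt A z S * G (fun _ : Fin k => U h S) -
          z ^ k * G (fun _ : Fin k => U h A)) / (k.factorial : ℝ)) := by
      rw [sub_div, mul_sub, Finset.sum_div, Finset.mul_sum, neg_pow z k]
      congr 1
      · refine Finset.sum_congr rfl fun S _ => ?_
        ring
      · ring
    have e2 : (-(1 : ℝ)) ^ k * ((∑ S ∈ A.powerset, wt A z S * G (fun _ : Fin k => U h S) -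
          z ^ k * G (fun _ : Fin k => U h A)) / (k.factorial : ℝ)) ≤
        ((k : ℝ) * (k - 1) * (A.card : ℝ) ^ (k - 1) * h ^ k) / (k.factorial : ℝ) := by
      refine (le_abs_self _).trans ?_
      rw [abs_mul, abs_pow, abs_neg, abs_one, one_pow, one_mul, abs_div,
        abs_of_pos hk]
      exact div_le_div_of_nonneg_right ht hk.le
    have e3 := e1.le.trans e2
    linarith

end Pool.Agent.N591.VP
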